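import Pool.Agent.Helper95.KZ.Goals
import Pool.Agent.Helper52.Wq2.Minor

/-!
# A line disjoint from a translate by an element of finite order does not separate the plane
-/

set_option autoImplicit false

namespace Pool.Agent.Helper62.KZ

open Pool.Agent.Helper52.Wq2 Pool.Agent.Helper61.NW Pool.Agent.Helper95.KZ

universe u

lemma fin_sub {V : Type*} {G : SimpleGraph V} {W : Set V} (hW : Conn G W) {p q : V} (hp : p ∈ W)
    (hq : q ∈ W) : ∃ F ⊆ W, F.Finite ∧ Conn G F ∧ p ∈ F ∧ q ∈ F := by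
  have h := hW.2 {x | x ∈ W ∧ ∃ F ⊆ W, F.Finite ∧ Conn G F ∧ p ∈ F ∧ x ∈ F} (fun x hx => hx.1)
    ⟨p, hp, {p}, by simpa using hp, Set.finite_singleton _, conn_singleton G p, rfl, rfl⟩
    (by
      rintro a ⟨_, F, hF, hFf, hFc, hpF, haF⟩ b hb hab
      refine ⟨hb, F ∪ {b}, Set.union_subset hF (by simpa using hb), hFf.union (Set.finite_singleton _),
        hFc.union (conn_singleton G b) haF rfl hab, Or.inl hpF, Or.inr rfl⟩)
  exact (h hq).2

lemma conn_join {V : Type*} {G : SimpleGraph V} {s t : Set V} (hs : Conn G s) (ht : Conn G t) {x : V}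
    (hx : x ∈ s) (hx' : x ∈ t) : Conn G (s ∪ t) := by
  refine ⟨⟨x, Or.inl hx⟩, fun A hA hne hcl => ?_⟩
  have h1 : (A ∩ s).Nonempty → s ⊆ A := by
    intro hn y hy
    exact (hs.2 (A ∩ s) Set.inter_subset_right hn
      (fun y hy z hz hyz => ⟨hcl y hy.1 z (Or.inl hz) hyz, hz⟩) hy).1
  have h2 : (A ∩ t).Nonempty → t ⊆ A := by
    intro hn y hy
    exact (ht.2 (A ∩ t) Set.inter_subset_right hn
      (fun y hy z hz hyz => ⟨hcl y hy.1 z (Or.inr hz) hyz, hz⟩) hy).1
  obtain ⟨y, hy⟩ := hne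
  rcases hA hy with h | h
  · have e1 := h1 ⟨y, hy, h⟩
    exact Set.union_subset e1 (h2 ⟨x, e1 hx, hx'⟩)
  · have e2 := h2 ⟨y, hy, h⟩
    exact Set.union_subset (h1 ⟨x, e2 hx', hx⟩) e2

lemma conn_smul {Γ : Type u} [Group Γ] {S : Set Γ} (hS : IsGen S) (g : Γ) {W : Set Γ}
    (hW : Conn (cay S) W) : Conn (cay S) {x | g * x ∈ W} := by
  obtain ⟨w, hw⟩ := hW.1
  refine ⟨⟨g⁻¹ * w, by simpa using hw⟩, fun A hA hne hcl => ?_⟩
  have h := hW.2 {y | g⁻¹ * y ∈ A} (fun y hy => by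
      have := hA hy
      simpa using this) (by
      obtain ⟨a, ha⟩ := hne
      exact ⟨g * a, by simpa using ha⟩) (by
      intro a ha b hb hab
      refine hcl _ ha _ (by simpa using hb) ?_
      rw [cay_adj hS] at hab ⊢
      have : (g⁻¹ * a)⁻¹ * (g⁻¹ * b) = a⁻¹ * b := by group
      rwa [this])
  intro x hx
  have := h hx
  simpa using this

/-- **JMP.** -/
theorem jmp (hSlc : SlcStmt.{u}) : JmpStmt.{u} := by
  intro Γ _ S a b k B hP o ho hko l hl hkl L hL0 hL c
  classical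
  have hS := hP.gen
  set c' : ℤ := max c (L + 1) with hc'
  have hcc : c ≤ c' := le_max_left _ _
  have hcL : L < c' := by
    have := le_max_right c (L + 1)
    omega
  set Rp := Sl a b B (fun j => c' ≤ j) with hRp
  set Rm := Sl a b B (fun j => j ≤ -c') with hRm
  have cp : Conn (cay S) Rp := hSlc Γ S a b k B hP _ ⟨c', le_refl _⟩ (by intros; omega)
  have cm : Conn (cay S) Rm := hSlc Γ S a b k B hP _ ⟨-c', le_refl _⟩ (by intros; omega)
  have dp : Disjoint Rp l := by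
    rw [Set.disjoint_left]
    rintro _ ⟨i, j, hj, x, hx, rfl⟩ hxl
    have := abs_le.1 (hL i j x hx hxl)
    omega
  have dm : Disjoint Rm l := by
    rw [Set.disjoint_left]
    rintro _ ⟨i, j, hj, x, hx, rfl⟩ hxl
    have := abs_le.1 (hL i j x hx hxl)
    omega
  have kSl : ∀ P : ℤ → Prop, ∀ x ∈ Sl a b B P, k * x ∈ Sl a b B P := by
    rintro P _ ⟨i, j, hj, x, hx, rfl⟩
    refine ⟨i, j, hj, k * x, hP.kB x hx, ?_⟩
    have h1 : Commute k (a ^ i) := (Commute.zpow_right (hP.ak.symm : Commute k a) i)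
    have h2 : Commute k (b ^ j) := (Commute.zpow_right (hP.bk.symm : Commute k b) j)
    rw [← mul_assoc k, (h1.mul_right h2).eq, mul_assoc]
  have kpow : ∀ (U : Set Γ), (∀ x ∈ U, k * x ∈ U) → ∀ (n : ℕ), ∀ x ∈ U, k ^ n * x ∈ U := by
    intro U hU n
    induction n with
    | zero => intro x hx; simpa using hx
    | succ n ih =>
      intro x hx
      rw [pow_succ', mul_assoc]
      exact hU _ (ih x hx)
  have kinv : ∀ (U : Set Γ), (∀ x ∈ U, k * x ∈ U) → ∀ x ∈ U, k⁻¹ * x ∈ U := by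
    intro U hU x hx
    have h1 : k⁻¹ = k ^ (o - 1) := by
      rw [inv_eq_iff_mul_eq_one, ← pow_succ', Nat.sub_add_cancel ho, hko]
    rw [h1]
    exact kpow U hU _ x hx
  -- the components
  let U : Set Γ → Set Γ := fun R => {x | ∃ W, Conn (cay S) W ∧ Disjoint W l ∧ (W ∩ R).Nonempty ∧ x ∈ W}
  -- the main step
  have step : ∀ P : ℤ → Prop, Conn (cay S) (Sl a b B P) → Disjoint (Sl a b B P) l →
      ¬ Disjoint {x | k⁻¹ * x ∈ l} (U (Sl a b B P)) := by
    intro P hc hd hdis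
    set R := Sl a b B P with hR
    have hRU : R ⊆ U R := by
      intro x hx
      exact ⟨R, hc, hd, ⟨x, hx, hx⟩, hx⟩
    have hUl : ∀ x ∈ U R, x ∉ l := by
      rintro x ⟨W, _, hW, _, hx⟩ hxl
      exact Set.disjoint_left.1 hW hx hxl
    -- `U ⊆ k U`
    have hsub : ∀ x ∈ U R, k⁻¹ * x ∈ U R := by
      rintro x ⟨W, hW, hWl, ⟨w, hw, hwR⟩, hx⟩
      refine ⟨{y | k * y ∈ W}, conn_smul hS k hW, ?_, ⟨k⁻¹ * w, by simpa using hw, kinv R (kSl P) w hwR⟩,
        by simpa using hx⟩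
      rw [Set.disjoint_left]
      intro y hy hyl
      have hy1 : k * y ∈ {x | k⁻¹ * x ∈ l} := by
        change k⁻¹ * (k * y) ∈ l
        rwa [inv_mul_cancel_left]
      exact Set.disjoint_left.1 hdis hy1 ⟨W, hW, hWl, ⟨w, hw, hwR⟩, hy⟩
    have hcl : ∀ x ∈ U R, ∀ y, (cay S).Adj x y → y ∈ U R := by
      intro x hx y hxy
      by_contra hy
      have hyl : y ∈ l := by
        by_contra hyl
        obtain ⟨W, hW, hWl, ⟨w, hw, hwR⟩, hxW⟩ := hx
        refine hy ⟨W ∪ {y}, hW.union (conn_singleton _ y) hxW rfl hxy, ?_, ⟨w, Or.inl hw, hwR⟩, Or.inr rfl⟩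
        rw [Set.disjoint_left]
        rintro z (hz | rfl) hzl
        · exact Set.disjoint_left.1 hWl hz hzl
        · exact hyl hzl
      have hx' := hsub x hx
      have hky : k⁻¹ * y ∉ l := by
        intro h
        have := hkl _ h
        rw [mul_inv_cancel_left] at this
        exact this hyl
      have hkU : k⁻¹ * y ∈ U R := by
        obtain ⟨W, hW, hWl, ⟨w, hw, hwR⟩, hxW⟩ := hx'
        refine ⟨W ∪ {k⁻¹ * y}, hW.union (conn_singleton _ _) hxW rfl ?_, ?_, ⟨w, Or.inl hw, hwR⟩, Or.inr rfl⟩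
        · rw [cay_adj hS] at hxy ⊢
          have : (k⁻¹ * x)⁻¹ * (k⁻¹ * y) = x⁻¹ * y := by group
          rwa [this]
        · rw [Set.disjoint_left]
          rintro z (hz | rfl) hzl
          · exact Set.disjoint_left.1 hWl hz hzl
          · exact hky hzl
      -- `y = k ^ (1 - o) ⋯`
      apply hy
      have hpow : ∀ n : ℕ, ∀ z ∈ U R, (k⁻¹) ^ n * z ∈ U R := by
        intro n
        induction n with
        | zero => intro z hz; simpa using hz
        | succ n ih =>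
          intro z hz
          rw [pow_succ', mul_assoc]
          exact hsub _ (ih z hz)
      have h1 := hpow (o - 1) _ hkU
      have h2 : (k⁻¹) ^ (o - 1) * (k⁻¹ * y) = y := by
        rw [← mul_assoc, ← pow_succ, Nat.sub_add_cancel ho, inv_pow, hko, inv_one, one_mul]
      rwa [h2] at h1
    -- everything is in `U`
    have huniv : ∀ x : Γ, ∀ g, g ∈ U R ↔ g * x ∈ U R := by
      intro x
      have hmul : ∀ t ∈ S, ∀ g ∈ U R, g * t ∈ U R := fun t ht g hg => hcl g hg _ (cay_adj_mul hS g ht)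
      have hx : x ∈ Subgroup.closure S := by rw [hS.1]; trivial
      induction hx using Subgroup.closure_induction with
      | mem t ht =>
        intro g
        refine ⟨hmul t ht g, fun hg => ?_⟩
        have := hmul t⁻¹ (hS.2.1 t ht) _ hg
        rwa [mul_inv_cancel_right] at this
      | one => intro g; rw [mul_one]
      | mul x y _ _ hx hy => intro g; rw [← mul_assoc, ← hy, ← hx]
      | inv x hx' hx =>
        intro g
        rw [hx (g * x⁻¹), inv_mul_cancel_right]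
    obtain ⟨y, hy⟩ := hl.1
    obtain ⟨r, hr⟩ := hc.1
    have h1 := (huniv (r⁻¹ * y) r).1 (hRU hr)
    rw [mul_inv_cancel_left] at h1
    exact hUl y h1 hy
  -- join
  have h1 := step _ cp dp
  have h2 := step _ cm dm
  rw [Set.not_disjoint_iff] at h1 h2
  obtain ⟨x, hx, W, hW, hWl, ⟨w, hw, hwR⟩, hxW⟩ := h1
  obtain ⟨x', hx', W', hW', hWl', ⟨w', hw', hwR'⟩, hxW'⟩ := h2
  have hkc : Conn (cay S) {x | k⁻¹ * x ∈ l} := conn_smul hS k⁻¹ hl
  have hkd : Disjoint {x | k⁻¹ * x ∈ l} l := by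
    rw [Set.disjoint_left]
    intro z hz hzl
    have := hkl _ hz
    rw [mul_inv_cancel_left] at this
    exact this hzl
  have j1 := conn_join hW hkc hxW hx
  have j2 := conn_join j1 hW' (Or.inr hx') hxW'
  obtain ⟨F, hF, hFf, hFc, hwF, hw'F⟩ := fin_sub j2 (Or.inl (Or.inl hw)) (Or.inr hw')
  refine ⟨F, hFf, hFc, ?_, ⟨w, hwF, ?_⟩, ⟨w', hw'F, ?_⟩⟩
  · rw [Set.disjoint_left]
    intro z hz hzl
    rcases hF hz with (h | h) | h
    · exact Set.disjoint_left.1 hWl h hzl
    · exact Set.disjoint_left.1 hkd h hzl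
    · exact Set.disjoint_left.1 hWl' h hzl
  · obtain ⟨i, j, hj, x, hx, e⟩ := hwR
    exact ⟨i, j, by omega, x, hx, e⟩
  · obtain ⟨i, j, hj, x, hx, e⟩ := hwR'
    exact ⟨i, j, by omega, x, hx, e⟩

end Pool.Agent.Helper62.KZ
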